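import Pool.Agent.Helper65.DS.Step
import Pool.Agent.H8K1.CL.Alg

/-!
# Invariant equivalence relations of solvable groups of permutations: all intervals (helper65)
-/

set_option autoImplicit false

namespace Pool.Agent.Helper65.DS

open Pool.Agent.H8K1.CL

universe u v

variable {G : Type v} [Group G] {X : Type u} {f : G → X → X}

theorem hered_group [Finite X] [Group.IsSolvable G] (h1 : ∀ x, f 1 x = x)
    (hm : ∀ g h x, f (g * h) x = f g (f h x)) : Hered (UCon f) := by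
  classical
  intro a T haT
  have hinv : ∀ g x, f g⁻¹ (f g x) = x := fun g x => by rw [← hm, inv_mul_cancel, h1]
  have haT' : ∀ x y, a.1 x y → T.1 x y := fun x y h => haT.le h
  by_cases hA : ∃ x y, T.1 x y ∧ ∀ g, ¬ a.1 (f g x) y
  · obtain ⟨x, y, hxy, hno⟩ := hA
    let O : X → Prop := fun p => ∃ g, a.1 (f g x) p
    have hO : ∀ i u, O u ↔ O (f i u) := by
      intro i u
      constructor
      · rintro ⟨g, hg⟩
        refine ⟨i * g, ?_⟩
        rw [hm]
        exact a.2 i _ _ hg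
      · rintro ⟨g, hg⟩
        refine ⟨i⁻¹ * g, ?_⟩
        have := a.2 i⁻¹ _ _ hg
        rwa [hinv, ← hm] at this
    have hOa : ∀ u v, a.1 u v → (O u ↔ O v) := by
      intro u v huv
      exact ⟨fun ⟨g, hg⟩ => ⟨g, a.1.trans hg huv⟩, fun ⟨g, hg⟩ => ⟨g, a.1.trans hg (a.1.symm huv)⟩⟩
    let N : UCon f := UCon.mk ⟨fun u v => T.1 u v ∧ (O u ↔ O v),
      fun u => ⟨T.1.refl _, Iff.rfl⟩, fun h => ⟨T.1.symm h.1, h.2.symm⟩,
      fun h h' => ⟨T.1.trans h.1 h'.1, h.2.trans h'.2⟩⟩ (fun i u v h =>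
        ⟨T.2 i _ _ h.1, (hO i u).symm.trans (h.2.trans (hO i v))⟩)
    have hNT : N ≤ T := fun u v h => h.1
    have hOx : O x := ⟨1, by rw [h1]⟩
    have hOy : ¬ O y := fun ⟨g, hg⟩ => hno g hg
    refine ⟨N, fun u v h => ⟨haT' _ _ h, hOa u v h⟩, lt_of_le_of_ne hNT (fun h => ?_), ?_⟩
    · have h2 : N.1 x y := by rw [h]; exact hxy
      exact hOy (h2.2.1 hOx)
    · intro J U hJ hJU hU hJN
      refine le_antisymm (sup_le hJU inf_le_left) ?_
      obtain ⟨p, q, hpq, hp, hq⟩ : ∃ p q, J.1 p q ∧ O p ∧ ¬ O q := by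
        by_contra hcon
        push Not at hcon
        refine hJN (fun p q hpq => ⟨hU (hJU hpq), ⟨hcon p q hpq, hcon q p (J.1.symm hpq)⟩⟩)
      have key : ∀ u v, U.1 u v → O u → ¬ O v → (J ⊔ (U ⊓ N)).1 u v := by
        intro u v huv hu hv
        obtain ⟨g, hg⟩ := hp
        obtain ⟨h, hh⟩ := hu
        -- `k p` is `a`-related to `u`
        have h2 : a.1 (f (h * g⁻¹) p) u := by
          have h3 := a.2 (h * g⁻¹) _ _ hg
          rw [← hm, inv_mul_cancel_right] at h3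
          exact a.1.trans (a.1.symm h3) hh
        have h3 : J.1 u (f (h * g⁻¹) q) :=
          J.1.trans (J.1.symm (hJ h2)) (J.2 _ _ _ hpq)
        have h4 : U.1 (f (h * g⁻¹) q) v := U.1.trans (U.1.symm (hJU h3)) huv
        have h5 : (U ⊓ N).1 (f (h * g⁻¹) q) v := inf_rel.2 ⟨h4, hU h4,
          ⟨fun h6 => absurd ((hO _ _).2 h6) hq, fun h6 => absurd h6 hv⟩⟩
        exact (J ⊔ (U ⊓ N)).1.trans ((le_sup_left : J ≤ J ⊔ (U ⊓ N)) h3)
          ((le_sup_right : U ⊓ N ≤ J ⊔ (U ⊓ N)) h5)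
      intro u v huv
      by_cases hu : O u
      · by_cases hv : O v
        · exact (le_sup_right : U ⊓ N ≤ J ⊔ (U ⊓ N)) (inf_rel.2 ⟨huv, hU huv, ⟨fun _ => hv,
            fun _ => hu⟩⟩)
        · exact key u v huv hu hv
      · by_cases hv : O v
        · exact (J ⊔ (U ⊓ N)).1.symm (key v u (U.1.symm huv) hv hu)
        · exact (le_sup_right : U ⊓ N ≤ J ⊔ (U ⊓ N)) (inf_rel.2 ⟨huv, hU huv,
            ⟨fun h => absurd h hu, fun h => absurd h hv⟩⟩)
  · push Not at hA
    obtain ⟨c, c', hcc, hncc⟩ : ∃ c c', T.1 c c' ∧ ¬ a.1 c c' := by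
      by_contra hcon
      push Not at hcon
      exact absurd (fun x y h => hcon x y h : T ≤ a) (not_le_of_gt haT)
    -- the stabiliser of the class of `c`
    let P : Subgroup G :=
      { carrier := {g | T.1 c (f g c)}
        one_mem' := by
          change T.1 c (f 1 c)
          rw [h1]
        mul_mem' := fun {g h} hg hh => by
          change T.1 c (f (g * h) c)
          rw [hm]
          exact T.1.trans hg (T.2 g _ _ hh)
        inv_mem' := fun {g} hg => by
          change T.1 c (f g⁻¹ c)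
          have := T.2 g⁻¹ _ _ hg
          rw [hinv] at this
          exact T.1.symm this }
    have hP : ∀ g, g ∈ P ↔ T.1 c (f g c) := fun g => Iff.rfl
    have hPx : ∀ g x, T.1 c x → (g ∈ P ↔ T.1 c (f g x)) := by
      intro g x hx
      rw [hP]
      have h2 : T.1 (f g c) (f g x) := T.2 g _ _ hx
      exact ⟨fun h => T.1.trans h h2, fun h => T.1.trans h (T.1.symm h2)⟩
    obtain ⟨m, hmP⟩ := (Group.isSolvable_def P).1 inferInstance
    have hex : ∃ n, ¬ ∀ x y, T.1 c x → T.1 c y →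
        ∃ g : P, g ∈ derivedSeries P n ∧ a.1 (f g x) y := by
      refine ⟨m, fun h => hncc ?_⟩
      obtain ⟨g, hg, hg'⟩ := h c c' (T.1.refl _) hcc
      rw [hmP, Subgroup.mem_bot] at hg
      rw [hg, Subgroup.coe_one, h1] at hg'
      exact hg'
    have hn₀ := Nat.find_spec hex
    have hmin : ∀ m < Nat.find hex, ∀ x y, T.1 c x → T.1 c y →
        ∃ g : P, g ∈ derivedSeries P m ∧ a.1 (f g x) y := fun m hm =>
      not_not.1 (Nat.find_min hex hm)
    obtain ⟨k, hk⟩ : ∃ k, Nat.find hex = k + 1 := by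
      rcases hk : Nat.find hex with _ | k
      · exfalso
        rw [hk] at hn₀
        apply hn₀
        intro x y hx hy
        obtain ⟨g, hg⟩ := hA x y (T.1.trans (T.1.symm hx) hy)
        refine ⟨⟨g, (hPx g x hx).2 (T.1.trans hy (T.1.symm (haT' _ _ hg)))⟩, ?_, hg⟩
        rw [derivedSeries_zero]
        exact Subgroup.mem_top _
      · exact ⟨k, rfl⟩
    have htr := hmin k (by omega)
    rw [hk] at hn₀
    clear hmin
    let κ : UCon f := UCon.mk ⟨fun u v => T.1 u v ∧ ∀ h, T.1 c (f h u) →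
        ∃ g : P, g ∈ derivedSeries P (k + 1) ∧ a.1 (f g (f h u)) (f h v),
      fun u => ⟨T.1.refl _, fun h _ => ⟨1, one_mem _, by
        rw [Subgroup.coe_one, h1]⟩⟩,
      fun {u v} huv => ⟨T.1.symm huv.1, fun h hh => by
        obtain ⟨g, hg, hg'⟩ := huv.2 h (T.1.trans hh (T.1.symm (T.2 h _ _ huv.1)))
        refine ⟨g⁻¹, inv_mem hg, ?_⟩
        have h2 := a.2 (g⁻¹ : G) _ _ hg'
        rw [hinv] at h2
        rw [Subgroup.coe_inv]
        exact a.1.symm h2⟩,
      fun {u v w} huv hvw => ⟨T.1.trans huv.1 hvw.1, fun h hh => by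
        obtain ⟨g, hg, hg'⟩ := huv.2 h hh
        obtain ⟨g₂, hg₂, hg₂'⟩ := hvw.2 h (T.1.trans hh (T.2 h _ _ huv.1))
        refine ⟨g₂ * g, mul_mem hg₂ hg, ?_⟩
        rw [Subgroup.coe_mul, hm]
        exact a.1.trans (a.2 _ _ _ hg') hg₂'⟩⟩ (fun i u v huv => ⟨T.2 i _ _ huv.1, fun h hh => by
          have h2 := huv.2 (h * i) (by rw [hm]; exact hh)
          rw [hm, hm] at h2
          exact h2⟩)
    have hκT : κ ≤ T := fun u v h => h.1
    have hκne : κ ≠ T := by
      intro h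
      apply hn₀
      intro x y hx hy
      have h2 : κ.1 x y := by rw [h]; exact T.1.trans (T.1.symm hx) hy
      have h3 := h2.2 1 (by rw [h1]; exact hx)
      rw [h1, h1] at h3
      exact h3
    have haκ : a ≤ κ := fun u v huv => ⟨haT' _ _ huv, fun h _ => ⟨1, one_mem _, by
      rw [Subgroup.coe_one, h1]; exact a.2 h _ _ huv⟩⟩
    obtain ⟨N, hN⟩ := (Set.toFinite {N : UCon f | κ ≤ N ∧ N < T}).exists_maximal
      ⟨κ, le_refl _, lt_of_le_of_ne hκT hκne⟩
    have hκN : κ ≤ N := hN.1.1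
    have hNT : N < T := hN.1.2
    refine ⟨N, haκ.trans hκN, hNT, fun J U hJ hJU hU hJN => ?_⟩
    have perm : ∀ x y z, N.1 x z → J.1 z y → ∃ w, J.1 x w ∧ N.1 w y := by
      intro x y z hxz hzy
      by_cases hz : ∃ h, T.1 c (f h z)
      · obtain ⟨h, hh⟩ := hz
        have hx' : T.1 c (f h x) := T.1.trans hh (T.1.symm (T.2 h _ _ (hNT.le hxz)))
        have hy' : T.1 c (f h y) := T.1.trans hh (T.2 h _ _ (hU (hJU hzy)))
        obtain ⟨g, hg, hgz⟩ := htr (f h z) (f h y) hh hy'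
        obtain ⟨b, hb, hbz⟩ := htr (f h z) (f h x) hh hx'
        -- `w' = b y'`
        have e1 : J.1 (f h x) (f b (f h y)) :=
          J.1.trans (J.1.symm (hJ hbz)) (J.2 _ _ _ (J.2 _ _ _ hzy))
        have e2 : N.1 (f b (f h y)) (f h y) := by
          have i1 : a.1 (f b (f g (f h z))) (f b (f h y)) := a.2 _ _ _ hgz
          have i2 : a.1 (f g (f b (f h z))) (f g (f h x)) := a.2 _ _ _ hbz
          have i3 : N.1 (f g (f h x)) (f g (f h z)) := N.2 _ _ _ (N.2 _ _ _ hxz)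
          have hTb : T.1 c (f b (f g (f h z))) :=
            (hPx _ _ ((hPx _ _ hh).1 g.2)).1 b.2
          have hTg : T.1 c (f g (f b (f h z))) :=
            (hPx _ _ ((hPx _ _ hh).1 b.2)).1 g.2
          have i4 : κ.1 (f b (f g (f h z))) (f g (f b (f h z))) := by
            refine ⟨T.1.trans (T.1.symm hTb) hTg, fun h' hh' => ?_⟩
            have hh'P : h' ∈ P := (hPx h' _ hTb).2 hh'
            refine ⟨⟨h', hh'P⟩ * (g * b * g⁻¹ * b⁻¹) * ⟨h', hh'P⟩⁻¹, ?_, ?_⟩
            · refine (inferInstance : (derivedSeries P (k + 1)).Normal).conj_mem _ ?_ _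
              rw [derivedSeries_succ]
              exact Subgroup.commutator_mem_commutator hg hb
            · have i5 : f ((⟨h', hh'P⟩ * (g * b * g⁻¹ * b⁻¹) * ⟨h', hh'P⟩⁻¹ : P) : G)
                  (f h' (f b (f g (f h z)))) = f h' (f g (f b (f h z))) := by
                simp only [← hm]
                congr 1
                push_cast
                group
              rw [i5]
          have hκ' : ∀ u v, a.1 u v → N.1 u v := fun u v h => hκN (haκ h)
          exact N.1.trans (N.1.symm (hκ' _ _ i1)) (N.1.trans (hκN i4) (N.1.trans (hκ' _ _ i2)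
            (N.1.trans i3 (hκ' _ _ hgz))))
        refine ⟨f h⁻¹ (f b (f h y)), ?_, ?_⟩
        · have := J.2 h⁻¹ _ _ e1
          rwa [hinv] at this
        · have := N.2 h⁻¹ _ _ e2
          rwa [hinv h y] at this
      · push Not at hz
        refine ⟨x, J.1.refl _, N.1.trans hxz (hκN ⟨hU (hJU hzy), fun h hh => absurd hh (hz h)⟩)⟩
    let M : UCon f := UCon.mk ⟨fun x y => ∃ z, J.1 x z ∧ N.1 z y,
      fun x => ⟨x, J.1.refl _, N.1.refl _⟩,
      fun {x y} ⟨z, h2, h3⟩ => by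
        exact perm y x z (N.1.symm h3) (J.1.symm h2),
      fun {x y t} ⟨z, h2, h3⟩ ⟨w, h4, h5⟩ => by
        obtain ⟨w', h6, h7⟩ := perm z w y h3 h4
        exact ⟨w', J.1.trans h2 h6, N.1.trans h7 h5⟩⟩ (fun i x y ⟨z, h2, h3⟩ =>
          ⟨f i z, J.2 i _ _ h2, N.2 i _ _ h3⟩)
    have hJM : J ≤ M := fun x y hxy => ⟨y, hxy, N.1.refl _⟩
    have hNM : N ≤ M := fun x y hxy => ⟨x, J.1.refl _, hxy⟩
    have hMT : M ≤ T := by
      rintro x y ⟨z, h2, h3⟩
      exact T.1.trans (hU (hJU h2)) (hNT.le h3)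
    have hM : M = T := by
      by_contra hne
      exact hJN (hJM.trans (hN.2 ⟨hκN.trans hNM, lt_of_le_of_ne hMT hne⟩ hNM))
    refine le_antisymm (sup_le hJU inf_le_left) ?_
    intro u v huv
    obtain ⟨z, h2, h3⟩ : M.1 u v := by rw [hM]; exact hU huv
    have h4 : U.1 z v := U.1.trans (U.1.symm (hJU h2)) huv
    exact (J ⊔ (U ⊓ N)).1.trans ((le_sup_left : J ≤ J ⊔ (U ⊓ N)) h2)
      ((le_sup_right : U ⊓ N ≤ J ⊔ (U ⊓ N)) (inf_rel.2 ⟨h4, h3⟩))

end Pool.Agent.Helper65.DS
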