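import Pool.Agent.Helper65.DS.Act

/-!
# Down-sets: the classes (helper65)
-/

set_option autoImplicit false

namespace Pool.Agent.Helper65.DS

open Pool.Agent.H8K1.CL

universe u v

/-- nonempty down-sets of finite lattices -/
theorem good_lowerSet {L : Type u} [Lattice L] [Finite L] (hL : Hered L) (D : Set L)
    (hne : D.Nonempty) (hD : IsLowerSet D) : Good D := by
  obtain ⟨x, hx⟩ := hne
  have : Nonempty L := ⟨x⟩
  obtain ⟨a, ha⟩ : ∃ a : L, ∀ b, a ≤ b := by
    obtain ⟨a, ha⟩ := (Set.toFinite (Set.univ : Set L)).exists_minimal ⟨x, trivial⟩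
    exact ⟨a, fun b => (ha.2 (y := a ⊓ b) trivial inf_le_left).trans inf_le_right⟩
  exact good_of_hered hL D a ⟨hD (ha x) hx, fun U _ => ha U, fun U hU V _ h => hD h hU⟩
    (Set.toFinite _)

/-- invariant equivalence relations -/
theorem good_invariant {G : Type v} [Group G] [Group.IsSolvable G] {X : Type u} [Finite X]
    [MulAction G X] (D : Set (Setoid X)) (hne : D.Nonempty)
    (hinv : ∀ r ∈ D, ∀ (g : G) (x y : X), r x y → r (g • x) (g • y))
    (hD : ∀ r ∈ D, ∀ s : Setoid X, (∀ (g : G) (x y : X), s x y → s (g • x) (g • y)) → s ≤ r →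
      s ∈ D) : Good D := by
  let f : G → X → X := fun g x => g • x
  have hH : Hered (UCon f) := hered_group (fun x => one_smul G x) (fun g h x => mul_smul g h x)
  let D' : Set (UCon f) := {r | r.1 ∈ D}
  have h1 : Good D' := by
    refine good_lowerSet hH D' ?_ ?_
    · obtain ⟨r, hr⟩ := hne
      exact ⟨⟨r, fun i x y h => hinv r hr i x y h⟩, hr⟩
    · intro r s hsr hr
      exact hD r.1 hr s.1 (fun g x y h => s.2 g x y h) hsr
  let e : D' ≃o D :=
    { toFun := fun r => ⟨r.1.1, r.2⟩
      invFun := fun r => ⟨⟨r.1, fun i x y h => hinv r.1 r.2 i x y h⟩, r.2⟩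
      left_inv := fun _ => rfl
      right_inv := fun _ => rfl
      map_rel_iff' := Iff.rfl }
  exact h1.congr e

/-- subgroups -/
theorem good_subgroups {G : Type u} [Group G] [Group.IsSolvable G] (H : Subgroup G)
    [H.FiniteIndex] (D : Set (Subgroup G)) (hne : D.Nonempty) (hH : ∀ K ∈ D, H ≤ K)
    (hD : ∀ K ∈ D, ∀ K', H ≤ K' → K' ≤ K → K' ∈ D) : Good D := by
  have hfin := finite_Ici H
  have : Finite (G ⧸ H) := H.finite_quotient_of_finiteIndex
  have h0 : Hered (UCon (cosetMap H)) := hered_group (f := cosetMap H) (fun x => one_smul G x)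
    (fun g h x => mul_smul g h x)
  have h1 : Hered (Set.Ici H) := h0.congr (subgroupIso H)
  let D' : Set (Set.Ici H) := {r | r.1 ∈ D}
  have h1 : Good D' := by
    refine good_lowerSet h1 D' ?_ ?_
    · obtain ⟨r, hr⟩ := hne
      exact ⟨⟨r, hH r hr⟩, hr⟩
    · intro r s hsr hr
      exact hD r.1 hr s.1 s.2 hsr
  let e : D' ≃o D :=
    { toFun := fun r => ⟨r.1.1, r.2⟩
      invFun := fun r => ⟨⟨r.1, hH r.1 r.2⟩, r.2⟩
      left_inv := fun _ => rfl
      right_inv := fun _ => rfl
      map_rel_iff' := Iff.rfl }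
  exact h1.congr e

end Pool.Agent.Helper65.DS
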