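import Mathlib

/-!
# Finite partially ordered sets with an irreducible element below few elements

The lattice notions of `Pool.Agent.R636.FLat`, `Pool.Agent.R636.FFam` for finite partially ordered
sets with a least element (helper65).
-/

set_option autoImplicit false
set_option linter.unusedSectionVars false

namespace Pool.Agent.Helper65.DS

/-- the elements below `J` have a largest element -/
def Irr {P : Type*} [PartialOrder P] (J : P) : Prop := ∃ J', J' < J ∧ ∀ b, b < J → b ≤ J'

/-- some irreducible element lies below less than half of the elements -/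
def Strong (P : Type*) [PartialOrder P] : Prop :=
  ∃ J : P, Irr J ∧ 2 * Nat.card {U : P // J ≤ U} < Nat.card P

/-- as for a Boolean lattice -/
def BoolLike (P : Type*) [PartialOrder P] : Prop :=
  ∃ n : ℕ, Nat.card P = 2 ^ n ∧
    Nat.card {U : P // ¬ IsBot U ∧ Nat.card P ≤ 2 * Nat.card {V : P // U ≤ V}} ≤ n

/-- some irreducible element lies below at most half of the elements -/
def Weak (P : Type*) [PartialOrder P] : Prop :=
  ∃ J : P, Irr J ∧ 2 * Nat.card {U : P // J ≤ U} ≤ Nat.card P

/-- the dichotomy -/
def Good (P : Type*) [PartialOrder P] : Prop :=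
  Strong P ∨ (BoolLike P ∧ (Nontrivial P → Weak P))

theorem Good.weak {P : Type*} [PartialOrder P] [Nontrivial P] (h : Good P) : Weak P := by
  rcases h with ⟨J, hJ, h⟩ | ⟨-, h⟩
  · exact ⟨J, hJ, h.le⟩
  · exact h inferInstance

theorem irr_map {P K : Type*} [PartialOrder P] [PartialOrder K] (e : P ≃o K) {J : P}
    (h : Irr J) : Irr (e J) := by
  obtain ⟨J', h1, h2⟩ := h
  refine ⟨e J', e.lt_iff_lt.2 h1, fun b hb => ?_⟩
  have h3 : e.symm b < J := by
    rw [← e.lt_iff_lt, e.apply_symm_apply]; exact hb
  rw [← e.symm_apply_le]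
  exact h2 _ h3

theorem card_ge_map {P K : Type*} [PartialOrder P] [PartialOrder K] (e : P ≃o K) (J : P) :
    Nat.card {U : P // J ≤ U} = Nat.card {U : K // e J ≤ U} := by
  refine Nat.card_congr ⟨fun U => ⟨e U.1, e.monotone U.2⟩,
    fun U => ⟨e.symm U.1, by rw [← e.le_iff_le, e.apply_symm_apply]; exact U.2⟩, ?_, ?_⟩
  · intro U; simp
  · intro U; simp

theorem isBot_map {P K : Type*} [PartialOrder P] [PartialOrder K] (e : P ≃o K) {J : P}
    (h : IsBot J) : IsBot (e J) := by
  intro b
  have := h (e.symm b)
  rw [← e.le_iff_le, e.apply_symm_apply] at this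
  exact this

theorem Strong.congr {P K : Type*} [PartialOrder P] [PartialOrder K] (e : P ≃o K) (h : Strong P) :
    Strong K := by
  obtain ⟨J, hJ, hc⟩ := h
  refine ⟨e J, irr_map e hJ, ?_⟩
  rw [← card_ge_map e J, ← Nat.card_congr e.toEquiv]
  exact hc

theorem BoolLike.congr {P K : Type*} [PartialOrder P] [PartialOrder K]
    (e : P ≃o K) (h : BoolLike P) : BoolLike K := by
  obtain ⟨n, h1, h2⟩ := h
  refine ⟨n, ?_, ?_⟩
  · rw [← Nat.card_congr e.toEquiv]; exact h1
  · refine le_trans (le_of_eq ?_) h2
    have hc : Nat.card K = Nat.card P := (Nat.card_congr e.toEquiv).symm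
    refine Nat.card_congr ⟨fun U => ⟨e.symm U.1, fun h3 => U.2.1 ?_, ?_⟩,
      fun U => ⟨e U.1, fun h3 => U.2.1 ?_, ?_⟩, ?_, ?_⟩
    · have := isBot_map e h3
      rw [e.apply_symm_apply] at this
      exact this
    · rw [← card_ge_map e.symm, ← hc]
      exact U.2.2
    · have := isBot_map e.symm h3
      rw [e.symm_apply_apply] at this
      exact this
    · rw [← card_ge_map e, hc]
      exact U.2.2
    · intro U; apply Subtype.ext; simp
    · intro U; apply Subtype.ext; simp

theorem Weak.congr {P K : Type*} [PartialOrder P] [PartialOrder K] (e : P ≃o K) (h : Weak P) :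
    Weak K := by
  obtain ⟨J, hJ, hc⟩ := h
  refine ⟨e J, irr_map e hJ, ?_⟩
  rw [← card_ge_map e J, ← Nat.card_congr e.toEquiv]
  exact hc

theorem Good.congr {P K : Type*} [PartialOrder P] [PartialOrder K]
    (e : P ≃o K) (h : Good P) : Good K :=
  h.elim (fun h => Or.inl (h.congr e)) (fun h => Or.inr ⟨h.1.congr e, fun _ =>
    (h.2 e.toEquiv.nontrivial).congr e⟩)

theorem card_prod_bool {K : Type*} [Finite K] : Nat.card (K × Bool) = 2 * Nat.card K := by
  rw [Nat.card_prod]; simp [mul_comm]

theorem card_ge_false {K : Type*} [PartialOrder K] [Finite K] (V : K) :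
    Nat.card {U : K × Bool // (V, false) ≤ U} = 2 * Nat.card {U : K // V ≤ U} := by
  rw [← card_prod_bool]
  refine Nat.card_congr ⟨fun U => (⟨U.1.1, U.2.1⟩, U.1.2), fun U => ⟨(U.1.1, U.2), U.1.2, by simp⟩,
    ?_, ?_⟩
  · intro U; rfl
  · intro U; rfl

theorem card_ge_true {K : Type*} [PartialOrder K] [Finite K] (V : K) :
    Nat.card {U : K × Bool // (V, true) ≤ U} = Nat.card {U : K // V ≤ U} := by
  refine Nat.card_congr ⟨fun U => ⟨U.1.1, U.2.1⟩, fun U => ⟨(U.1, true), U.2, le_refl _⟩,
    ?_, ?_⟩
  · intro U
    apply Subtype.ext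
    apply Prod.ext
    · rfl
    · have := U.2.2
      cases h : U.1.2
      · rw [h] at this
        have h9 : (true : Bool) ≤ false := this
        exact absurd h9 (by decide)
      · rfl
  · intro U; rfl

theorem Good.prod {K : Type*} [PartialOrder K] [Finite K] (hbot : ∃ b : K, IsBot b) (h : Good K) :
    Good (K × Bool) := by
  obtain ⟨b₀, hb₀⟩ := hbot
  have hbp : IsBot ((b₀, false) : K × Bool) := fun p => ⟨hb₀ _, by simp⟩
  rcases h with ⟨J, ⟨J', hJ', hJ⟩, hc⟩ | ⟨⟨n, h1, h2⟩, -⟩
  · left
    refine ⟨(J, false), ⟨(J', false), ?_, ?_⟩, ?_⟩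
    · exact Prod.mk_lt_mk_iff_left.2 hJ'
    · rintro ⟨b, x⟩ hb
      have hx : x = false := by
        have h3 : x ≤ false := hb.le.2
        cases x
        · rfl
        · exact absurd h3 (by decide)
      subst hx
      exact ⟨hJ b (Prod.mk_lt_mk_iff_left.1 hb), le_refl _⟩
    · rw [card_ge_false, card_prod_bool]
      omega
  · right
    refine ⟨⟨n + 1, by rw [card_prod_bool, h1, pow_succ, mul_comm], ?_⟩, fun _ => ?_⟩
    swap
    · refine ⟨(b₀, true), ⟨(b₀, false), ?_, ?_⟩, ?_⟩
      · exact Prod.mk_lt_mk_iff_right.2 (by decide)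
      · rintro ⟨b, x⟩ hb
        have h3 : b = b₀ := le_antisymm hb.le.1 (hb₀ b)
        subst h3
        have h4 : x < true := Prod.mk_lt_mk_iff_right.1 hb
        cases x
        · exact le_refl _
        · exact absurd h4 (lt_irrefl _)
      · rw [card_ge_true, card_prod_bool]
        have h3 : Nat.card {U : K // b₀ ≤ U} ≤ Nat.card K :=
          Nat.card_le_card_of_injective _ Subtype.val_injective
        omega
    have hf : Finite {U : K // ¬ IsBot U ∧ Nat.card K ≤ 2 * Nat.card {V : K // U ≤ V}} :=
      inferInstance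
    have hle : Nat.card {U : K × Bool // ¬ IsBot U ∧ Nat.card (K × Bool) ≤
        2 * Nat.card {V : K × Bool // U ≤ V}} ≤
        Nat.card (Option {U : K // ¬ IsBot U ∧ Nat.card K ≤ 2 * Nat.card {V : K // U ≤ V}}) := by
      have key : ∀ U : {U : K × Bool // ¬ IsBot U ∧ Nat.card (K × Bool) ≤
          2 * Nat.card {V : K × Bool // U ≤ V}}, (U.1.2 = false → ¬ IsBot U.1.1 ∧
            Nat.card K ≤ 2 * Nat.card {V : K // U.1.1 ≤ V}) ∧ (U.1.2 = true → U.1.1 = b₀) := by
        rintro ⟨⟨V, x⟩, h3, h4⟩
        rw [card_prod_bool] at h4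
        refine ⟨?_, ?_⟩
        · intro hx
          simp only at hx
          subst hx
          rw [card_ge_false] at h4
          refine ⟨fun h5 => h3 ?_, ?_⟩
          · exact fun p => ⟨h5 _, by simp⟩
          · change Nat.card K ≤ 2 * Nat.card {W : K // V ≤ W}
            omega
        · intro hx
          simp only at hx
          subst hx
          rw [card_ge_true] at h4
          have h5 : Nat.card {U : K // V ≤ U} = Nat.card K :=
            le_antisymm (Nat.card_le_card_of_injective _ Subtype.val_injective) (by omega)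
          have h6 : Function.Surjective (Subtype.val : {U : K // V ≤ U} → K) := by
            have := (Nat.bijective_iff_injective_and_card
              (Subtype.val : {U : K // V ≤ U} → K)).2 ⟨Subtype.val_injective, h5⟩
            exact this.2
          obtain ⟨W, hW⟩ := h6 b₀
          have := W.2
          rw [hW] at this
          exact le_antisymm this (hb₀ _)
      refine Nat.card_le_card_of_injective
        (fun U => if hx : U.1.2 = false then some ⟨U.1.1, (key U).1 hx⟩ else none) ?_
      intro U V hUV
      have hU := key U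
      have hV := key V
      simp only at hUV
      by_cases hx : U.1.2 = false
      · by_cases hy : V.1.2 = false
        · rw [dif_pos hx, dif_pos hy] at hUV
          have h3 := congrArg Subtype.val (Option.some.inj hUV)
          apply Subtype.ext
          apply Prod.ext
          · exact h3
          · rw [hx, hy]
        · rw [dif_pos hx, dif_neg hy] at hUV
          exact absurd hUV (by simp)
      · by_cases hy : V.1.2 = false
        · rw [dif_neg hx, dif_pos hy] at hUV
          exact absurd hUV (by simp)
        · have hx' : U.1.2 = true := by simpa using hx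
          have hy' : V.1.2 = true := by simpa using hy
          apply Subtype.ext
          apply Prod.ext
          · rw [hU.2 hx', hV.2 hy']
          · rw [hx', hy']
    have h3 : Nat.card (Option {U : K // ¬ IsBot U ∧ Nat.card K ≤ 2 * Nat.card {V : K // U ≤ V}}) =
      Nat.card {U : K // ¬ IsBot U ∧ Nat.card K ≤ 2 * Nat.card {V : K // U ≤ V}} + 1 :=
      Finite.card_option
    omega

theorem good_of_subsingleton {P : Type*} [PartialOrder P] [Finite P] [Subsingleton P]
    [Nonempty P] : Good P := by
  right
  refine ⟨⟨0, ?_, ?_⟩, fun h => absurd h (not_nontrivial P)⟩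
  · simp
  · have : IsEmpty {U : P // ¬ IsBot U ∧ Nat.card P ≤ 2 * Nat.card {V : P // U ≤ V}} :=
      ⟨fun U => U.2.1 (fun b => (Subsingleton.elim _ _ : U.1 = b).le)⟩
    exact le_of_eq Nat.card_of_isEmpty

section fam

variable {α : Type*} [DecidableEq α] (A : Finset (Finset α))
  (hA : ∀ X ∈ A, ∀ Y ∈ A, X ∪ Y ∈ A)
  {L : Type*} [PartialOrder L] [Finite L] (e : {X // X ∈ A} ≃o Lᵒᵈ)

include e in
theorem fam_card : Nat.card L = A.card := by
  have h1 : Nat.card L = Nat.card {X // X ∈ A} := Nat.card_congr
    ((e.toEquiv.trans OrderDual.ofDual).symm)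
  rw [h1]; simp

/-- the element of the order that corresponds to the member `X` -/
def lat (X : {X // X ∈ A}) : L := OrderDual.ofDual (e X)

theorem lat_le {X Y : {X // X ∈ A}} : lat A e X ≤ lat A e Y ↔ Y.1 ⊆ X.1 := by
  change OrderDual.toDual (lat A e Y) ≤ OrderDual.toDual (lat A e X) ↔ _
  change e Y ≤ e X ↔ _
  rw [e.le_iff_le]
  rfl

theorem lat_surj (J : L) : ∃ X, lat A e X = J :=
  ⟨e.symm (OrderDual.toDual J), by simp [lat]⟩

theorem lat_inj {X Y : {X // X ∈ A}} (h : lat A e X = lat A e Y) : X = Y :=
  e.injective (OrderDual.ofDual.injective h)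

/-- the members contained in `X` correspond to the elements above `lat X` -/
theorem card_le_lat (X : {X // X ∈ A}) :
    (A.filter fun Y => Y ⊆ X.1).card = Nat.card {U : L // lat A e X ≤ U} := by
  classical
  have h1 : (A.filter fun Y => Y ⊆ X.1).card = Nat.card {Y // Y ∈ A.filter fun Y => Y ⊆ X.1} := by
    rw [Nat.card_eq_fintype_card, Fintype.card_coe]
  rw [h1]
  refine Nat.card_congr ⟨fun Y => ⟨lat A e ⟨Y.1, (Finset.mem_filter.1 Y.2).1⟩, ?_⟩,
    fun U => ⟨(e.symm (OrderDual.toDual U.1)).1, ?_⟩, ?_, ?_⟩
  · rw [lat_le]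
    exact (Finset.mem_filter.1 Y.2).2
  · rw [Finset.mem_filter]
    refine ⟨(e.symm (OrderDual.toDual U.1)).2, ?_⟩
    have h2 : lat A e X ≤ lat A e (e.symm (OrderDual.toDual U.1)) := by
      have := U.2
      simpa [lat] using this
    exact (lat_le A e).1 h2
  · intro Y; apply Subtype.ext; simp [lat]
  · intro U; apply Subtype.ext; simp [lat]

include hA e in
/-- an irreducible element `J` comes from an element `i` of the ground set: the members that
do not contain `i` are contained in the member that corresponds to `J` -/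
theorem exists_point {J : L} (hJ : Irr J) :
    ∃ i ∈ A.sup id, A.card ≤ (A.filter fun X => i ∈ X).card + Nat.card {U : L // J ≤ U} := by
  classical
  obtain ⟨X, rfl⟩ := lat_surj A e J
  obtain ⟨J', h1, h3⟩ := hJ
  obtain ⟨X', hX'⟩ := lat_surj A e J'
  have h4 : X.1 ⊆ X'.1 := (lat_le A e).1 (by rw [hX']; exact h1.le)
  obtain ⟨i, hi, hiX⟩ : ∃ i ∈ X'.1, i ∉ X.1 := by
    by_contra hno
    push Not at hno
    apply h1.ne
    rw [← hX']
    congr 1
    exact Subtype.ext (Finset.Subset.antisymm hno h4)
  refine ⟨i, ?_, ?_⟩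
  · rw [Finset.mem_sup]
    exact ⟨X'.1, X'.2, hi⟩
  · have h5 : (A.filter fun Y => ¬ i ∈ Y).card ≤ (A.filter fun Y => Y ⊆ X.1).card := by
      apply Finset.card_le_card
      intro Y hY
      rw [Finset.mem_filter] at hY ⊢
      refine ⟨hY.1, ?_⟩
      have hZ : Y ∪ X.1 ∈ A := hA _ hY.1 _ X.2
      have hiZ : i ∉ Y ∪ X.1 := by
        rw [Finset.mem_union, not_or]
        exact ⟨hY.2, hiX⟩
      by_contra hYX
      have h6 : lat A e ⟨Y ∪ X.1, hZ⟩ < lat A e X := by
        refine lt_of_le_of_ne ((lat_le A e).2 Finset.subset_union_right) (fun h7 => hYX ?_)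
        have h8 := congrArg Subtype.val (lat_inj A e h7)
        simp only at h8
        rw [← h8]
        exact Finset.subset_union_left
      have h7 := h3 _ h6
      rw [← hX', lat_le] at h7
      exact hiZ (h7 hi)
    have h6 := Finset.card_filter_add_card_filter_not (s := A) (fun Y => i ∈ Y)
    rw [card_le_lat A e X] at h5
    omega

include hA e in
/-- the half form for orders with a suitable irreducible element -/
theorem frankl_of_irr {J : L} (hJ : Irr J)
    (h : 2 * Nat.card {U : L // J ≤ U} ≤ Nat.card L) :
    ∃ i, A.card ≤ 2 * (A.filter fun X => i ∈ X).card := by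
  obtain ⟨i, -, hi⟩ := exists_point A hA e hJ
  refine ⟨i, ?_⟩
  rw [fam_card A e] at h
  omega

include hA e in
/-- the union-closed sets conjecture for families whose order is dual to a good order -/
theorem frankl_of_good (h : Good L) (hne : A.Nonempty) (hne' : A ≠ {∅}) :
    ∃ i, A.card ≤ 2 * (A.filter fun X => i ∈ X).card := by
  classical
  rcases subsingleton_or_nontrivial L with hL | hL
  · have h1 : A.card = 1 := by
      rw [← fam_card A e]
      obtain ⟨X, hX⟩ := hne
      have : Nonempty L := ⟨lat A e ⟨X, hX⟩⟩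
      simp
    obtain ⟨X, hX⟩ := Finset.card_eq_one.1 h1
    have h2 : X.Nonempty := by
      rw [Finset.nonempty_iff_ne_empty]
      rintro rfl
      exact hne' hX
    obtain ⟨i, hi⟩ := h2
    refine ⟨i, ?_⟩
    have h3 : A.filter (fun X => i ∈ X) = A := by
      apply Finset.filter_true_of_mem
      intro Y hY
      rw [hX, Finset.mem_singleton] at hY
      rw [hY]; exact hi
    rw [h3]
    omega
  · obtain ⟨J, hJ, hc⟩ := h.weak
    exact frankl_of_irr A hA e hJ hc

include hA e in
/-- Poonen's form -/
theorem poonen_of_good (h : Good L)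
    (hsep : ∀ x ∈ A.sup id, ∀ y ∈ A.sup id, x ≠ y → ∃ S ∈ A, (x ∈ S ∧ y ∉ S) ∨ (y ∈ S ∧ x ∉ S))
    (hne : A.Nonempty) (hpow : A ≠ (A.sup id).powerset) :
    ∃ x ∈ A.sup id, 2 * (A.filter fun S => x ∈ S).card > A.card := by
  classical
  have := Fintype.ofFinite L
  rcases h with ⟨J, hJ, hc⟩ | ⟨⟨n, h1, h2⟩, -⟩
  · obtain ⟨i, hi, hi'⟩ := exists_point A hA e hJ
    refine ⟨i, hi, ?_⟩
    rw [fam_card A e] at hc
    omega
  · by_contra hno
    push Not at hno
    apply hpow
    have htop : A.sup id ∈ A := by
      have : ∀ B : Finset (Finset α), B ⊆ A → B.Nonempty → B.sup id ∈ A := by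
        intro B
        induction B using Finset.induction_on with
        | empty => intro _ h; exact absurd h (by simp)
        | insert X B hX ih =>
          intro hB _
          by_cases hBe : B.Nonempty
          · rw [Finset.sup_insert]
            exact hA _ (hB (Finset.mem_insert_self _ _)) _
              (ih (fun Y hY => hB (Finset.mem_insert_of_mem hY)) hBe)
          · rw [Finset.not_nonempty_iff_eq_empty.1 hBe, Finset.sup_insert, Finset.sup_empty]
            simpa using hB (Finset.mem_insert_self _ _)
      exact this A (Finset.Subset.refl A) hne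
    -- the largest member without `i`
    have hM : ∀ i ∈ A.sup id, ∃ X : {X // X ∈ A}, ∀ Y ∈ A, i ∉ Y ↔ Y ⊆ X.1 := by
      intro i hi
      have h3 : (A.filter fun Y => i ∉ Y).Nonempty := by
        rw [Finset.nonempty_iff_ne_empty]
        intro h4
        have h5 := Finset.card_filter_add_card_filter_not (s := A) (fun Y => i ∈ Y)
        rw [h4, Finset.card_empty] at h5
        have h6 := hno i hi
        have := hne.card_pos
        omega
      have h4 : ∀ B : Finset (Finset α), B ⊆ (A.filter fun Y => i ∉ Y) → B.Nonempty →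
          B.sup id ∈ (A.filter fun Y => i ∉ Y) := by
        intro B
        induction B using Finset.induction_on with
        | empty => intro _ h; exact absurd h (by simp)
        | insert X B hX ih =>
          intro hB _
          by_cases hBe : B.Nonempty
          · rw [Finset.sup_insert]
            have h5 := hB (Finset.mem_insert_self _ _)
            have h6 := ih (fun Y hY => hB (Finset.mem_insert_of_mem hY)) hBe
            rw [Finset.mem_filter] at h5 h6 ⊢
            refine ⟨hA _ h5.1 _ h6.1, ?_⟩
            simp only [id, Finset.sup_eq_union, Finset.mem_union, not_or]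
            exact ⟨h5.2, h6.2⟩
          · rw [Finset.not_nonempty_iff_eq_empty.1 hBe, Finset.sup_insert, Finset.sup_empty]
            simpa using hB (Finset.mem_insert_self _ _)
      have h5 := h4 _ (Finset.Subset.refl _) h3
      rw [Finset.mem_filter] at h5
      refine ⟨⟨_, h5.1⟩, fun Y hY => ⟨fun h6 => ?_, fun h6 h7 => h5.2 (h6 h7)⟩⟩
      exact Finset.le_sup (f := id) (Finset.mem_filter.2 ⟨hY, h6⟩)
    have hneA : Nonempty {X // X ∈ A} := ⟨⟨_, htop⟩⟩
    choose! M hM using hM
    have hcard : ((A.sup id).card : ℕ) ≤ n := by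
      refine le_trans ?_ h2
      have h3 : (A.sup id).card = Nat.card {i // i ∈ A.sup id} := by
        rw [Nat.card_eq_fintype_card, Fintype.card_coe]
      rw [h3]
      have hkey : ∀ i ∈ A.sup id, ¬ IsBot (lat A e (M i)) ∧
          Nat.card L ≤ 2 * Nat.card {V : L // lat A e (M i) ≤ V} := by
        intro i hi
        constructor
        · intro h4
          have h5 : lat A e (M i) ≤ lat A e ⟨A.sup id, htop⟩ := h4 _
          rw [lat_le] at h5
          have h6 := (hM i hi (M i).1 (M i).2).2 (Finset.Subset.refl _)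
          exact h6 (h5 hi)
        · rw [← card_le_lat A e (M i), fam_card A e]
          have h5 := Finset.card_filter_add_card_filter_not (s := A) (fun Y => i ∈ Y)
          have h6 := hno i hi
          have h7 : (A.filter fun Y => i ∉ Y) = (A.filter fun Y => Y ⊆ (M i).1) := by
            apply Finset.filter_congr
            intro Y hY
            exact hM i hi Y hY
          rw [h7] at h5
          omega
      refine Nat.card_le_card_of_injective (fun i => ⟨lat A e (M i.1), hkey i.1 i.2⟩) ?_
      intro i j hij
      have h4 := lat_inj A e (congrArg Subtype.val hij)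
      by_contra hne'
      have hne'' : i.1 ≠ j.1 := fun h => hne' (Subtype.ext h)
      obtain ⟨Y, hY, h5⟩ := hsep i.1 i.2 j.1 j.2 hne''
      have h6 := hM i.1 i.2 Y hY
      have h7 := hM j.1 j.2 Y hY
      rw [h4] at h6
      have h8 : i.1 ∉ Y ↔ j.1 ∉ Y := h6.trans h7.symm
      tauto
    have h4 : A ⊆ (A.sup id).powerset := by
      intro Y hY
      rw [Finset.mem_powerset]
      exact Finset.le_sup (f := id) hY
    apply Finset.eq_of_subset_of_card_le h4
    rw [Finset.card_powerset, ← fam_card A e, h1]
    exact Nat.pow_le_pow_right (by norm_num) hcard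

end fam

end Pool.Agent.Helper65.DS
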