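import Pool.Agent.Helper65.DS.Base

/-!
# Hereditary sets in lattices whose intervals have suitable coatoms (helper65)
-/

set_option autoImplicit false

namespace Pool.Agent.Helper65.DS

/-- `D` has the least element `a` and contains with `U` all `V` with `a ≤ V ≤ U` -/
structure Down {L : Type*} [Lattice L] (a : L) (D : Set L) : Prop where
  mem : a ∈ D
  le : ∀ U ∈ D, a ≤ U
  down : ∀ U ∈ D, ∀ V, a ≤ V → V ≤ U → V ∈ D

/-- `N` recovers the elements above elements not below `N`, in `[a, T]` -/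
def Rec {L : Type*} [Lattice L] (a T N : L) : Prop :=
  ∀ J U, a ≤ J → J ≤ U → U ≤ T → ¬ J ≤ N → J ⊔ (U ⊓ N) = U

/-- every interval has a suitable element -/
def Hered (L : Type*) [Lattice L] : Prop :=
  ∀ a T : L, a < T → ∃ N, a ≤ N ∧ N < T ∧ Rec a T N

variable {L : Type*} [Lattice L]

theorem exists_irr {D : Set L} {N : L} (hfin : D.Finite)
    (hN' : ∃ d ∈ D, ¬ d ≤ N) : ∃ J ∈ D, ¬ J ≤ N ∧ ∀ b ∈ D, b < J → b ≤ N := by
  obtain ⟨J, hJ⟩ := (hfin.subset (Set.sep_subset D (fun U => ¬ U ≤ N))).exists_minimal hN'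
  refine ⟨J, hJ.1.1, hJ.1.2, fun b hb hbJ => ?_⟩
  by_contra hcon
  exact absurd (hJ.2 ⟨hb, hcon⟩ hbJ.le) (not_le_of_gt hbJ)

theorem irr_of {D : Set L} {a N : L} (hD : Down a D) (hN : a ≤ N) {J : L} (hJ : J ∈ D)
    (h1 : ¬ J ≤ N) (h2 : ∀ b ∈ D, b < J → b ≤ N) : Irr (⟨J, hJ⟩ : D) := by
  refine ⟨⟨J ⊓ N, hD.down J hJ _ (le_inf (hD.le J hJ) hN) inf_le_left⟩, ?_, ?_⟩
  · have h3 : J ⊓ N < J := lt_of_le_of_ne inf_le_left (fun h => h1 (inf_eq_left.1 h))
    exact h3
  · rintro ⟨b, hb⟩ hbJ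
    have h3 : b < J := hbJ
    exact le_inf h3.le (h2 b hb h3)

/-- half form with one element -/
theorem weak_of_rec {D : Set L} {a T N : L} (hD : Down a D) (hfin : D.Finite)
    (hT : ∀ U ∈ D, U ≤ T) (hN : a ≤ N) (hN' : ∃ d ∈ D, ¬ d ≤ N) (hr : Rec a T N) : Weak D := by
  classical
  obtain ⟨J, hJ, h1, h2⟩ := exists_irr hfin hN'
  have : Finite D := hfin
  refine ⟨⟨J, hJ⟩, irr_of hD hN hJ h1 h2, ?_⟩
  have h3 : Nat.card {U : D // (⟨J, hJ⟩ : D) ≤ U} ≤ Nat.card {U : D // ¬ (⟨J, hJ⟩ : D) ≤ U} := by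
    refine Nat.card_le_card_of_injective
      (fun U => ⟨⟨U.1.1 ⊓ N, hD.down U.1.1 U.1.2 _ (le_inf (hD.le _ U.1.2) hN) inf_le_left⟩,
        fun h3 => h1 ?_⟩) ?_
    · have h4 : J ≤ U.1.1 ⊓ N := h3
      exact h4.trans inf_le_right
    · intro U V hUV
      have h4 : U.1.1 ⊓ N = V.1.1 ⊓ N := congrArg (fun x => x.1.1) hUV
      have h5 : J ≤ U.1.1 := U.2
      have h6 : J ≤ V.1.1 := V.2
      apply Subtype.ext
      apply Subtype.ext
      rw [← hr J U.1.1 (hD.le J hJ) h5 (hT _ U.1.2) h1, h4,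
        hr J V.1.1 (hD.le J hJ) h6 (hT _ V.1.2) h1]
  have h2 : Nat.card {U : D // (⟨J, hJ⟩ : D) ≤ U} + Nat.card {U : D // ¬ (⟨J, hJ⟩ : D) ≤ U} =
      Nat.card D := by
    rw [← Nat.card_sum]
    exact Nat.card_congr (Equiv.sumCompl _)
  omega

theorem good_step {D : Set L} {a T N : L} (hD : Down a D) (hfin : D.Finite)
    (hT : ∀ U ∈ D, U ≤ T) (hN : a ≤ N) (hN' : ∃ d ∈ D, ¬ d ≤ N) (hr : Rec a T N)
    (ih : ∀ J ∈ D, J ≠ a → Good {U // U ∈ D ∧ J ≤ U}) : Good D := by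
  classical
  obtain ⟨J, hJ, h1, h2⟩ := exists_irr hfin hN'
  have hF : Finite D := hfin
  have hirr := irr_of hD hN hJ h1 h2
  have hinf : ∀ U ∈ D, U ⊓ N ∈ D := fun U hU =>
    hD.down U hU _ (le_inf (hD.le _ hU) hN) inf_le_left
  have hrec : ∀ U ∈ D, J ≤ U → J ⊔ (U ⊓ N) = U := fun U hU h3 =>
    hr J U (hD.le J hJ) h3 (hT U hU) h1
  by_cases hex : ∃ V ∈ D, ¬ J ≤ V ∧ ∀ U ∈ D, J ≤ U → U ⊓ N ≠ V
  · left
    obtain ⟨V₀, hV₀, hV₁, hV₂⟩ := hex
    refine ⟨⟨J, hJ⟩, hirr, ?_⟩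
    have h3 : Nat.card {U : D // (⟨J, hJ⟩ : D) ≤ U} <
        Nat.card {U : D // ¬ (⟨J, hJ⟩ : D) ≤ U} := by
      have h4 : Function.Injective (fun U : {U : D // (⟨J, hJ⟩ : D) ≤ U} =>
          (⟨⟨U.1.1 ⊓ N, hinf _ U.1.2⟩, fun h3 => h1 (le_trans (show J ≤ U.1.1 ⊓ N from h3)
            inf_le_right)⟩ : {U : D // ¬ (⟨J, hJ⟩ : D) ≤ U})) := by
        intro U V hUV
        have h4 : U.1.1 ⊓ N = V.1.1 ⊓ N := congrArg (fun x => x.1.1) hUV
        have h5 : J ≤ U.1.1 := U.2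
        have h6 : J ≤ V.1.1 := V.2
        apply Subtype.ext
        apply Subtype.ext
        rw [← hrec _ U.1.2 h5, h4, hrec _ V.1.2 h6]
      refine lt_of_le_of_ne (Nat.card_le_card_of_injective _ h4) (fun h5 => ?_)
      obtain ⟨U, hU⟩ := ((Nat.bijective_iff_injective_and_card _).2 ⟨h4, h5⟩).2
        ⟨⟨V₀, hV₀⟩, fun h6 => hV₁ h6⟩
      exact hV₂ U.1.1 U.1.2 U.2 (congrArg (fun x => x.1.1) hU)
    have h2 : Nat.card {U : D // (⟨J, hJ⟩ : D) ≤ U} + Nat.card {U : D // ¬ (⟨J, hJ⟩ : D) ≤ U} =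
        Nat.card D := by
      rw [← Nat.card_sum]
      exact Nat.card_congr (Equiv.sumCompl _)
    omega
  · push Not at hex
    have hV : ∀ V ∈ D, ¬ J ≤ V → V ≤ N ∧ J ⊔ V ∈ D ∧ (J ⊔ V) ⊓ N = V := by
      intro V hVD hJV
      obtain ⟨U, hU, hJU, rfl⟩ := hex V hVD hJV
      rw [hrec U hU hJU]
      exact ⟨inf_le_right, hU, rfl⟩
    have hJa : J ≠ a := fun h3 => h1 (h3 ▸ hN)
    have h3 := ih J hJ hJa
    have : Finite {U // U ∈ D ∧ J ≤ U} := Finite.of_injective
      (fun U : {U // U ∈ D ∧ J ≤ U} => (⟨U.1, U.2.1⟩ : D)) (fun U V h =>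
        Subtype.ext (congrArg (fun x : D => x.1) h))
    let e : {U // U ∈ D ∧ J ≤ U} × Bool ≃o D :=
      { toFun := fun p => if p.2 = true then ⟨p.1.1, p.1.2.1⟩ else ⟨p.1.1 ⊓ N, hinf _ p.1.2.1⟩
        invFun := fun U => if h : J ≤ U.1 then (⟨U.1, U.2, h⟩, true) else
          (⟨J ⊔ U.1, (hV U.1 U.2 h).2.1, le_sup_left⟩, false)
        left_inv := by
          rintro ⟨⟨U, hU, hJU⟩, b⟩
          cases b
          · have h4 : ¬ J ≤ U ⊓ N := fun h4 => h1 (h4.trans inf_le_right)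
            simp [h4, hrec U hU hJU]
          · simp [hJU]
        right_inv := by
          rintro ⟨U, hU⟩
          by_cases h4 : J ≤ U
          · simp [h4]
          · simp [h4, (hV U hU h4).2.2]
        map_rel_iff' := by
          rintro ⟨⟨U, hU, hJU⟩, b⟩ ⟨⟨V, hVD, hJV⟩, c⟩
          cases b <;> cases c
          · simp only [Equiv.coe_fn_mk, Bool.false_eq_true, if_false, Prod.mk_le_mk,
              Subtype.mk_le_mk, le_refl, and_true]
            constructor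
            · intro h4
              rw [← hrec U hU hJU, ← hrec V hVD hJV]
              exact sup_le_sup_left h4 _
            · intro h4
              exact inf_le_inf_right _ h4
          · simp only [Equiv.coe_fn_mk, Bool.false_eq_true, if_false, if_true, Prod.mk_le_mk,
              Subtype.mk_le_mk]
            constructor
            · intro h4
              refine ⟨?_, by simp⟩
              rw [← hrec U hU hJU]
              exact sup_le hJV h4
            · rintro ⟨h4, -⟩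
              exact inf_le_left.trans h4
          · simp only [Equiv.coe_fn_mk, Bool.false_eq_true, if_false, if_true, Prod.mk_le_mk,
              Subtype.mk_le_mk]
            constructor
            · intro h4
              exact absurd (hJU.trans (h4.trans inf_le_right)) h1
            · rintro ⟨-, h5⟩
              exact absurd h5 (by decide)
          · simp only [Equiv.coe_fn_mk, if_true, Prod.mk_le_mk, Subtype.mk_le_mk, le_refl,
              and_true] }
    refine (Good.prod ⟨⟨J, hJ, le_refl _⟩, fun U => U.2.2⟩ h3).congr e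

/-- the least element of the part above `J` -/
theorem Down.above {D : Set L} {a J : L} (hD : Down a D) (hJ : J ∈ D) :
    Down J {U | U ∈ D ∧ J ≤ U} where
  mem := ⟨hJ, le_refl _⟩
  le := fun _ hU => hU.2
  down := fun U hU V h1 h2 => ⟨hD.down U hU.1 V ((hD.le J hJ).trans h1) h2, h1⟩

theorem exists_join {D : Set L} (hfin : D.Finite) (hne : D.Nonempty) :
    ∃ T, (∀ U ∈ D, U ≤ T) ∧ ∀ N, (∀ U ∈ D, U ≤ N) → T ≤ N := by
  classical
  have hne' : hfin.toFinset.Nonempty := by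
    obtain ⟨x, hx⟩ := hne
    exact ⟨x, hfin.mem_toFinset.2 hx⟩
  refine ⟨hfin.toFinset.sup' hne' id, fun U hU => ?_, fun N hN => ?_⟩
  · exact Finset.le_sup' (f := id) (hfin.mem_toFinset.2 hU)
  · exact Finset.sup'_le hne' _ (fun U hU => hN U (hfin.mem_toFinset.1 hU))

/-- **Hereditary sets in lattices all of whose intervals have suitable coatoms are good.** -/
theorem good_of_hered (hL : Hered L) (D : Set L) (a : L) (hD : Down a D) (hfin : D.Finite) :
    Good D := by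
  induction hn : D.ncard using Nat.strong_induction_on generalizing D a with
  | _ n ih =>
  have hF : Finite D := hfin
  have hNe : Nonempty D := ⟨⟨a, hD.mem⟩⟩
  by_cases h1 : ∃ d ∈ D, d ≠ a
  · obtain ⟨T, hT, hT'⟩ := exists_join hfin ⟨a, hD.mem⟩
    obtain ⟨d, hd, hda⟩ := h1
    have haT : a < T := lt_of_lt_of_le (lt_of_le_of_ne (hD.le d hd) (Ne.symm hda)) (hT d hd)
    obtain ⟨N, hN, hNT, hr⟩ := hL a T haT
    have hN' : ∃ d ∈ D, ¬ d ≤ N := by
      by_contra hno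
      push Not at hno
      exact absurd (hT' N hno) (not_le_of_gt hNT)
    refine good_step hD hfin hT hN hN' hr (fun J hJ hJa => ?_)
    have hsub : {U | U ∈ D ∧ J ≤ U} ⊂ D := by
      refine ⟨fun U hU => hU.1, fun h2 => ?_⟩
      have h3 : J ≤ a := (h2 hD.mem).2
      exact hJa (le_antisymm h3 (hD.le J hJ))
    refine ih _ ?_ {U | U ∈ D ∧ J ≤ U} J (hD.above hJ) (hfin.subset hsub.1) rfl
    rw [← hn]
    exact Set.ncard_lt_ncard hsub hfin
  · push Not at h1
    have : Subsingleton D := ⟨fun x y => Subtype.ext ((h1 _ x.2).trans (h1 _ y.2).symm)⟩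
    exact good_of_subsingleton

/-- transfer -/
theorem Hered.congr {K : Type*} [Lattice K] (e : L ≃o K) (h : Hered L) : Hered K := by
  intro a T haT
  obtain ⟨N, h1, h2, h3⟩ := h (e.symm a) (e.symm T) (e.symm.lt_iff_lt.2 haT)
  refine ⟨e N, ?_, ?_, fun J U hJ hJU hU hJN => ?_⟩
  · rw [← e.symm_apply_le]; exact h1
  · rw [← e.lt_symm_apply]; exact h2
  · have h4 := h3 (e.symm J) (e.symm U) (e.symm.monotone hJ) (e.symm.monotone hJU)
      (e.symm.monotone hU) (fun h5 => hJN (by rw [← e.symm_apply_le]; exact h5))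
    have h5 := congrArg e h4
    rw [e.map_sup, e.map_inf, e.apply_symm_apply, e.apply_symm_apply] at h5
    exact h5

/-- **Finite lower semimodular lattices.** -/
theorem hered_lower [Finite L] [IsLowerModularLattice L] : Hered L := by
  intro a T haT
  obtain ⟨N, hN⟩ := (Set.toFinite {N : L | a ≤ N ∧ N < T}).exists_maximal ⟨a, le_refl _, haT⟩
  have hcov : N ⋖ T := ⟨hN.1.2, fun c hc1 hc2 =>
    absurd (hN.2 ⟨hN.1.1.trans hc1.le, hc2⟩ hc1.le) (not_le_of_gt hc1)⟩
  refine ⟨N, hN.1.1, hN.1.2, fun J U hJ hJU hU hJN => ?_⟩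
  have hUN : ¬ U ≤ N := fun h => hJN (hJU.trans h)
  have h1 : N ⊔ U = T := by
    refine (hcov.eq_or_eq le_sup_left (sup_le hcov.le hU)).resolve_left (fun h => hUN ?_)
    rw [← h]; exact le_sup_right
  have h2 : U ⊓ N ⋖ U := by
    rw [inf_comm]
    exact inf_covBy_of_covBy_sup_left (by rw [h1]; exact hcov)
  refine (h2.eq_or_eq le_sup_right (sup_le hJU inf_le_left)).resolve_left (fun h => hJN ?_)
  calc J ≤ J ⊔ (U ⊓ N) := le_sup_left
    _ = U ⊓ N := h
    _ ≤ N := inf_le_right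

end Pool.Agent.Helper65.DS
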